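import Pool.Agent.H63.LB.PLG

/-!
# Module L-PLF: paths lift through the quotient map `Y^N → SP N Y`
-/

open Topology Set

namespace Pool.Agent.H63.LB.PLF

open Pool.Agent.H64.LB

/-- L-PLF from L-PLG -/
theorem plf (h : T_PLG) : T_PLF := by
  intro Y _ _ N γ
  obtain ⟨x₀, hx₀⟩ : ∃ x₀ : Fin N → Y, SP.mk x₀ = γ 0 := Quotient.exists_rep (γ 0)
  have := h (Equiv.Perm (Fin N)) (Fin N → Y) (SP N Y)
    (fun σ => ⟨fun y i => y (σ⁻¹ i), by fun_prop⟩) ⟨SP.mk, SP.continuous_mk⟩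
    (fun y => rfl) (fun σ τ y => by
      funext i
      simp [mul_inv_rev, Equiv.Perm.mul_apply])
    (by
      exact isQuotientMap_quot_mk)
    (by
      intro x y
      constructor
      · intro hxy
        obtain ⟨σ, hσ⟩ : ∃ σ : Equiv.Perm (Fin N), y = x ∘ σ := Quotient.exact hxy
        refine ⟨σ⁻¹, ?_⟩
        rw [hσ]
        funext i
        simp
      · rintro ⟨σ, rfl⟩
        exact Quotient.sound ⟨σ⁻¹, rfl⟩)
    γ x₀ hx₀
  obtain ⟨γ', -, h2⟩ := this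
  exact ⟨γ', h2⟩

theorem plf' : T_PLF := plf Pool.Agent.H63.LB.PLG.plg

end Pool.Agent.H63.LB.PLF
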