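import Pool.Agent.H64.LB.Targets

/-!
# Module L-PLG: paths lift through the orbit map of a finite group acting on a Hausdorff space
-/

open Topology Set
open scoped unitInterval

namespace Pool.Agent.H63.LB.PLG

variable {G X Q : Type} [Group G] [Finite G] [TopologicalSpace X] [T2Space X] [TopologicalSpace Q]

/-- a lift on `[a, b]` -/
def L (p : C(X, Q)) (γ : ℝ → Q) (a b : ℝ) : Prop :=
  ∃ f : ℝ → X, Continuous f ∧ ∀ t ∈ Icc a b, p (f t) = γ t

omit [T2Space X] in
theorem L.mono {p : C(X, Q)} {γ : ℝ → Q} {a b a' b' : ℝ} (h : L p γ a b) (h1 : a ≤ a')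
    (h2 : b' ≤ b) : L p γ a' b' := by
  obtain ⟨f, hf, h⟩ := h
  exact ⟨f, hf, fun t ht => h t ⟨h1.trans ht.1, ht.2.trans h2⟩⟩

omit [Group G] [Finite G] [T2Space X] in
/-- extension to the right -/
theorem ext_right {act : G → C(X, X)} {p : C(X, Q)}
    (hp : ∀ x y, p x = p y ↔ ∃ g, y = act g x) {γ : ℝ → Q} {a b c : ℝ} (hab : a ≤ b) (hbc : b ≤ c)
    {f : ℝ → X} (hf : Continuous f) (hf' : ∀ t ∈ Icc a b, p (f t) = γ t) (h : L p γ b c) :
    ∃ f' : ℝ → X, Continuous f' ∧ (∀ t ∈ Icc a c, p (f' t) = γ t) ∧ ∀ t ≤ b, f' t = f t := by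
  obtain ⟨g, hg, h⟩ := h
  have h1 : p (g b) = p (f b) := by rw [h b ⟨le_refl _, hbc⟩, hf' b ⟨hab, le_refl _⟩]
  obtain ⟨k, hk⟩ := (hp _ _).1 h1
  refine ⟨fun t => if t ≤ b then f t else act k (g t), ?_, ?_, ?_⟩
  · refine Continuous.if_le hf ((act k).continuous.comp hg) continuous_id continuous_const ?_
    rintro x rfl
    exact hk
  · intro t ht
    by_cases h2 : t ≤ b
    · simp only [h2, if_true]
      exact hf' t ⟨ht.1, h2⟩
    · simp only [h2, if_false]
      rw [← h t ⟨(not_le.1 h2).le, ht.2⟩]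
      exact ((hp _ _).2 ⟨k, rfl⟩).symm
  · intro t ht
    simp [ht]

omit [Group G] [Finite G] [T2Space X] in
/-- extension to the left -/
theorem ext_left {act : G → C(X, X)} {p : C(X, Q)}
    (hp : ∀ x y, p x = p y ↔ ∃ g, y = act g x) {γ : ℝ → Q} {a b c : ℝ} (hab : a ≤ b) (hbc : b ≤ c)
    {f : ℝ → X} (hf : Continuous f) (hf' : ∀ t ∈ Icc b c, p (f t) = γ t) (h : L p γ a b) :
    ∃ f' : ℝ → X, Continuous f' ∧ (∀ t ∈ Icc a c, p (f' t) = γ t) ∧ ∀ t, b ≤ t → f' t = f t := by
  obtain ⟨g, hg, h⟩ := h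
  have h1 : p (g b) = p (f b) := by rw [h b ⟨hab, le_refl _⟩, hf' b ⟨le_refl _, hbc⟩]
  obtain ⟨k, hk⟩ := (hp _ _).1 h1
  refine ⟨fun t => if b ≤ t then f t else act k (g t), ?_, ?_, ?_⟩
  · refine Continuous.if_le hf ((act k).continuous.comp hg) continuous_const continuous_id ?_
    rintro x rfl
    exact hk
  · intro t ht
    by_cases h2 : b ≤ t
    · simp only [h2, if_true]
      exact hf' t ⟨h2, ht.2⟩
    · simp only [h2, if_false]
      rw [← h t ⟨ht.1, (not_le.1 h2).le⟩]
      exact ((hp _ _).2 ⟨k, rfl⟩).symm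
  · intro t ht
    simp [ht]

omit [Group G] [Finite G] [T2Space X] in
/-- extension on both sides -/
theorem ext_both {act : G → C(X, X)} {p : C(X, Q)}
    (hp : ∀ x y, p x = p y ↔ ∃ g, y = act g x) {γ : ℝ → Q} {a' a b b' : ℝ} (h0 : a' ≤ a)
    (hab : a ≤ b) (h1 : b ≤ b')
    {f : ℝ → X} (hf : Continuous f) (hf' : ∀ t ∈ Icc a b, p (f t) = γ t) (h : L p γ a' b') :
    ∃ f' : ℝ → X, Continuous f' ∧ (∀ t ∈ Icc a' b', p (f' t) = γ t) ∧
      ∀ t ∈ Icc a b, f' t = f t := by
  obtain ⟨f1, c1, l1, e1⟩ := ext_right hp hab h1 hf hf' (h.mono (h0.trans hab) (le_refl _))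
  obtain ⟨f2, c2, l2, e2⟩ := ext_left hp h0 (hab.trans h1) c1 l1
    (h.mono (le_refl _) (hab.trans h1))
  refine ⟨f2, c2, l2, fun t ht => ?_⟩
  rw [e2 t ht.1, e1 t ht.2]

omit [Group G] [Finite G] [T2Space X] in
theorem L.trans {act : G → C(X, X)} {p : C(X, Q)}
    (hp : ∀ x y, p x = p y ↔ ∃ g, y = act g x) {γ : ℝ → Q} {a b c : ℝ} (hab : a ≤ b) (hbc : b ≤ c)
    (h1 : L p γ a b) (h2 : L p γ b c) : L p γ a c := by
  obtain ⟨f, hf, h⟩ := h1
  obtain ⟨f', h3, h4, -⟩ := ext_right hp hab hbc hf h h2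
  exact ⟨f', h3, h4⟩

omit [Group G] [Finite G] [T2Space X] in
/-- local lifts give lifts on compact intervals -/
theorem L_of_local {act : G → C(X, X)} {p : C(X, Q)}
    (hp : ∀ x y, p x = p y ↔ ∃ g, y = act g x) {γ : ℝ → Q} {a b : ℝ} (hab : a ≤ b)
    (hloc : ∀ t ∈ Icc a b, ∃ J : Set ℝ, IsOpen J ∧ t ∈ J ∧ ∀ c d, c ≤ d → Icc c d ⊆ J → L p γ c d) :
    L p γ a b := by
  choose! J hJo hJm hJ using hloc
  obtain ⟨t, t0, tm, ⟨m, hm⟩, hc⟩ := exists_monotone_Icc_subset_open_cover_Icc hab
    (c := fun i : Icc a b => (Subtype.val ⁻¹' J i : Set (Icc a b)))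
    (fun i => (hJo i.1 i.2).preimage continuous_subtype_val)
    (fun s _ => mem_iUnion.2 ⟨s, hJm s.1 s.2⟩)
  have key : ∀ n, L p γ a (t n) := by
    intro n
    induction n with
    | zero =>
      have h1 : L p γ a a := hJ a ⟨le_refl _, hab⟩ a a (le_refl _) (by
        rw [Icc_self, singleton_subset_iff]
        exact hJm a ⟨le_refl _, hab⟩)
      rw [t0]
      exact h1
    | succ n ih =>
      refine ih.trans hp (t n).2.1 (tm (Nat.le_succ n)) ?_
      obtain ⟨i, hi⟩ := hc n
      refine hJ i.1 i.2 _ _ (tm (Nat.le_succ n)) ?_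
      intro s hs
      have h1 : s ∈ Icc a b := ⟨(t n).2.1.trans hs.1, hs.2.trans (t (n + 1)).2.2⟩
      exact hi (show (⟨s, h1⟩ : Icc a b) ∈ _ from ⟨hs.1, hs.2⟩)
  have := key m
  rw [hm m (le_refl _)] at this
  exact this

omit [Group G] [Finite G] [T2Space X] in
/-- lifts on an open interval, from lifts on compact subintervals -/
theorem lift_open {act : G → C(X, X)} {p : C(X, Q)}
    (hp : ∀ x y, p x = p y ↔ ∃ g, y = act g x) {γ : ℝ → Q} {C : Set ℝ} (hCo : IsOpen C)
    (hCc : OrdConnected C) {m : ℝ} (hm : m ∈ C)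
    (hL : ∀ a b, a ≤ b → Icc a b ⊆ C → L p γ a b) :
    ∃ f : ℝ → X, ContinuousOn f C ∧ ∀ t ∈ C, p (f t) = γ t := by
  -- rational points of `C`
  obtain ⟨q, hq⟩ : ∃ q : ℕ → ℚ, Function.Surjective q := exists_surjective_nat ℚ
  -- the points used
  let r : ℕ → ℝ := fun n => open Classical in if (q n : ℝ) ∈ C then (q n : ℝ) else m
  have hr : ∀ n, r n ∈ C := by
    intro n
    simp only [r]
    split_ifs with h
    · exact h
    · exact hm
  have hr' : ∀ x : ℚ, (x : ℝ) ∈ C → ∃ n, r n = x := by
    intro x hx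
    obtain ⟨n, hn⟩ := hq x
    refine ⟨n, ?_⟩
    simp only [r, hn, hx, if_true]
  -- states: a compact interval with a lift
  let St : Type := {s : (ℝ × ℝ) × (ℝ → X) // s.1.1 ≤ s.1.2 ∧ Icc s.1.1 s.1.2 ⊆ C ∧
    Continuous s.2 ∧ ∀ t ∈ Icc s.1.1 s.1.2, p (s.2 t) = γ t}
  have step : ∀ (n : ℕ) (s : St), ∃ s' : St, s'.1.1.1 = min s.1.1.1 (r n) ∧
      s'.1.1.2 = max s.1.1.2 (r n) ∧ ∀ t ∈ Icc s.1.1.1 s.1.1.2, s'.1.2 t = s.1.2 t := by
    rintro n ⟨⟨⟨a, b⟩, f⟩, hab, hC, hf, hl⟩
    simp only at hab hC hf hl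
    have h1 : min a (r n) ∈ C := by
      rcases min_choice a (r n) with h | h
      · rw [h]; exact hC ⟨le_refl _, hab⟩
      · rw [h]; exact hr n
    have h2 : max b (r n) ∈ C := by
      rcases max_choice b (r n) with h | h
      · rw [h]; exact hC ⟨hab, le_refl _⟩
      · rw [h]; exact hr n
    have h3 : Icc (min a (r n)) (max b (r n)) ⊆ C := hCc.out h1 h2
    have h4 : min a (r n) ≤ max b (r n) := (min_le_left _ _).trans (hab.trans (le_max_left _ _))
    obtain ⟨f', c', l', e'⟩ := ext_both hp (min_le_left a (r n)) hab (le_max_left b (r n)) hf hl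
      (hL _ _ h4 h3)
    exact ⟨⟨((min a (r n), max b (r n)), f'), h4, h3, c', l'⟩, rfl, rfl, e'⟩
  choose nx hx1 hx2 hx3 using step
  obtain ⟨f0, hf0, hl0⟩ := hL m m (le_refl _) (by rw [Icc_self, singleton_subset_iff]; exact hm)
  let s0 : St := ⟨((m, m), f0), le_refl _, by rw [Icc_self, singleton_subset_iff]; exact hm,
    hf0, hl0⟩
  let s : ℕ → St := fun n => Nat.rec s0 nx n
  have hs : ∀ n, s (n + 1) = nx n (s n) := fun n => rfl
  have hmono : ∀ n k, n ≤ k → (s k).1.1.1 ≤ (s n).1.1.1 ∧ (s n).1.1.2 ≤ (s k).1.1.2 ∧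
      ∀ t ∈ Icc (s n).1.1.1 (s n).1.1.2, (s k).1.2 t = (s n).1.2 t := by
    intro n k hk
    induction k, hk using Nat.le_induction with
    | base => exact ⟨le_refl _, le_refl _, fun t _ => rfl⟩
    | succ k hk ih =>
      obtain ⟨i1, i2, i3⟩ := ih
      rw [hs]
      refine ⟨?_, ?_, ?_⟩
      · rw [hx1]; exact (min_le_left _ _).trans i1
      · rw [hx2]; exact i2.trans (le_max_left _ _)
      · intro t ht
        rw [hx3 k (s k) t ⟨i1.trans ht.1, ht.2.trans i2⟩, i3 t ht]
  -- every point of `C` is an interior point of some interval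
  have hcov : ∀ t ∈ C, ∃ n, (s n).1.1.1 < t ∧ t < (s n).1.1.2 := by
    intro t ht
    obtain ⟨ε, hε, hb⟩ := Metric.isOpen_iff.1 hCo t ht
    obtain ⟨x, hx, hx'⟩ := exists_rat_btwn (show t - ε < t by linarith)
    obtain ⟨y, hy, hy'⟩ := exists_rat_btwn (show t < t + ε by linarith)
    obtain ⟨n, hn⟩ := hr' x (hb (by
      rw [Metric.mem_ball, Real.dist_eq, abs_lt]; constructor <;> linarith))
    obtain ⟨k, hk⟩ := hr' y (hb (by
      rw [Metric.mem_ball, Real.dist_eq, abs_lt]; constructor <;> linarith))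
    refine ⟨max n k + 1, ?_, ?_⟩
    · have h1 := (hmono (n + 1) (max n k + 1) (by omega)).1
      refine lt_of_le_of_lt h1 ?_
      rw [hs, hx1]
      exact lt_of_le_of_lt (min_le_right _ _) (by rw [hn]; exact hx')
    · have h1 := (hmono (k + 1) (max n k + 1) (by omega)).2.1
      refine lt_of_lt_of_le ?_ h1
      rw [hs, hx2]
      exact lt_of_lt_of_le (by rw [hk]; exact hy) (le_max_right _ _)
  choose! N hN1 hN2 using hcov
  refine ⟨fun t => (s (N t)).1.2 t, ?_, ?_⟩
  · intro t ht
    refine ContinuousAt.continuousWithinAt ?_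
    have h1 : (fun u => (s (N u)).1.2 u) =ᶠ[𝓝 t] (s (N t)).1.2 := by
      have h2 : Ioo (s (N t)).1.1.1 (s (N t)).1.1.2 ∩ C ∈ 𝓝 t :=
        Filter.inter_mem (Ioo_mem_nhds (hN1 t ht) (hN2 t ht)) (hCo.mem_nhds ht)
      filter_upwards [h2] with u hu
      rcases le_total (N t) (N u) with h | h
      · exact (hmono _ _ h).2.2 u ⟨hu.1.1.le, hu.1.2.le⟩
      · exact ((hmono _ _ h).2.2 u ⟨(hN1 u hu.2).le, (hN2 u hu.2).le⟩).symm
    exact ((s (N t)).2.2.2.1.continuousAt (x := t)).congr h1.symm
  · intro t ht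
    exact (s (N t)).2.2.2.2 t ⟨(hN1 t ht).le, (hN2 t ht).le⟩

omit [Group G] [Finite G] [T2Space X] in
/-- the orbit map is open -/
theorem isOpen_image {act : G → C(X, X)} {p : C(X, Q)} (hq : IsQuotientMap p)
    (hp : ∀ x y, p x = p y ↔ ∃ g, y = act g x) {U : Set X} (hU : IsOpen U) : IsOpen (p '' U) := by
  rw [← hq.isOpen_preimage]
  have : p ⁻¹' (p '' U) = ⋃ g : G, (act g) ⁻¹' U := by
    ext x
    simp only [mem_preimage, mem_image, mem_iUnion]
    constructor
    · rintro ⟨u, hu, he⟩
      obtain ⟨g, hg⟩ := (hp _ _).1 he.symm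
      exact ⟨g, by rw [← hg]; exact hu⟩
    · rintro ⟨g, hg⟩
      exact ⟨_, hg, ((hp _ _).2 ⟨g, rfl⟩).symm⟩
  rw [this]
  exact isOpen_iUnion (fun g => hU.preimage (act g).continuous)

/-- slices -/
theorem exists_slice {act : G → C(X, X)} (h1 : ∀ x, act 1 x = x)
    (hm : ∀ g h x, act (g * h) x = act g (act h x)) (x : X) :
    ∃ U : Set X, IsOpen U ∧ x ∈ U ∧ (∀ h, act h x = x → ∀ u ∈ U, act h u ∈ U) ∧
      ∀ g, ∀ u ∈ U, act g u ∈ U → act g x = x := by
  obtain ⟨O, hO, hd⟩ := (Set.finite_range (fun g => act g x)).t2_separation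
  refine ⟨⋂ g, (act g) ⁻¹' (O (act g x)), ?_, ?_, ?_, ?_⟩
  · exact isOpen_iInter_of_finite (fun g => (hO _).2.preimage (act g).continuous)
  · exact mem_iInter.2 (fun g => (hO _).1)
  · intro h hh u hu
    refine mem_iInter.2 (fun g => ?_)
    have h2 := mem_iInter.1 hu (g * h)
    rw [mem_preimage, hm, hm, hh] at h2
    exact h2
  · intro g u hu hg
    by_contra hne
    have h2 := mem_iInter.1 hu g
    have h3 := mem_iInter.1 hg 1
    rw [mem_preimage] at h2 h3
    rw [h1, h1] at h3
    exact Set.disjoint_left.1 (hd ⟨g, rfl⟩ ⟨1, h1 x⟩ hne) h2 h3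

/-- the induction: real parameters, no initial condition -/
theorem main : ∀ (N : ℕ) (G X Q : Type) [Group G] [Finite G] [TopologicalSpace X] [T2Space X]
    [TopologicalSpace Q] (act : G → C(X, X)) (p : C(X, Q)), Nat.card G ≤ N →
    (∀ x, act 1 x = x) → (∀ g h x, act (g * h) x = act g (act h x)) → IsQuotientMap p →
    (∀ x y, p x = p y ↔ ∃ g, y = act g x) →
    ∀ γ : ℝ → Q, Continuous γ → ∃ f : ℝ → X, Continuous f ∧ ∀ t, p (f t) = γ t := by
  intro N
  induction N with
  | zero =>
    intro G X Q _ _ _ _ _ act p hc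
    have := Nat.card_pos (α := G)
    omega
  | succ N ih =>
    intro G X Q _ _ _ _ _ act p hc h1 hm hq hp γ hγ
    -- the fixed times
    let W : Set ℝ := {t | ∃ x, p x = γ t ∧ ∃ g, act g x ≠ x}
    -- local lifts
    have hloc : ∀ t ∈ W, ∃ J : Set ℝ, IsOpen J ∧ t ∈ J ∧ J ⊆ W ∧
        ∀ c d, c ≤ d → Icc c d ⊆ J → L p γ c d := by
      rintro t ⟨x, hx, g, hg⟩
      obtain ⟨U, hUo, hxU, hUH, hUg⟩ := exists_slice h1 hm x
      have hpU : IsOpen (p '' U) := isOpen_image hq hp hUo
      refine ⟨γ ⁻¹' (p '' U), hpU.preimage hγ, ?_, ?_, ?_⟩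
      · rw [mem_preimage, ← hx]
        exact mem_image_of_mem _ hxU
      · rintro s ⟨u, hu, hs⟩
        refine ⟨u, hs, g, fun he => hg ?_⟩
        exact hUg g u hu (by rw [he]; exact hu)
      · intro c d hcd hcd'
        -- the stabiliser
        let H : Subgroup G :=
          { carrier := {h | act h x = x}
            mul_mem' := by
              intro a b ha hb
              simp only [mem_ofPred_eq] at ha hb ⊢
              rw [hm, hb, ha]
            one_mem' := h1 x
            inv_mem' := by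
              intro a ha
              simp only [mem_ofPred_eq] at ha ⊢
              have h2 : act (a⁻¹ * a) x = x := by rw [inv_mul_cancel, h1]
              rw [hm, ha] at h2
              exact h2 }
        have hHc : Nat.card H ≤ N := by
          have h2 : Nat.card H < Nat.card G := by
            rcases lt_or_eq_of_le (Nat.card_le_card_of_injective (Subtype.val : H → G)
              Subtype.val_injective) with h3 | h3
            · exact h3
            · exfalso
              have h4 := Subgroup.eq_top_of_card_eq H h3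
              apply hg
              have h5 : g ∈ H := by rw [h4]; trivial
              exact h5
          omega
        let actU : H → C(U, U) := fun h =>
          ⟨fun u => ⟨act h.1 u.1, hUH h.1 h.2 u.1 u.2⟩,
            ((act h.1).continuous.comp continuous_subtype_val).subtype_mk _⟩
        let pU : C(U, ↥(p '' U)) := ⟨fun u => ⟨p u.1, mem_image_of_mem _ u.2⟩,
          (p.continuous.comp continuous_subtype_val).subtype_mk _⟩
        have hpUq : IsQuotientMap pU := by
          refine IsOpenMap.isQuotientMap ?_ pU.continuous ?_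
          · intro V hV
            have h2 : IsOpen (Subtype.val '' V : Set X) := hUo.isOpenMap_subtype_val V hV
            have h3 := isOpen_image hq hp h2
            have h4 : pU '' V = Subtype.val ⁻¹' (p '' (Subtype.val '' V)) := by
              ext y
              constructor
              · rintro ⟨v, hv, rfl⟩
                exact ⟨v.1, ⟨v, hv, rfl⟩, rfl⟩
              · rintro ⟨_, ⟨v, hv, rfl⟩, h5⟩
                exact ⟨v, hv, Subtype.ext h5⟩
            rw [h4]
            exact h3.preimage continuous_subtype_val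
          · rintro ⟨_, u, hu, rfl⟩
            exact ⟨⟨u, hu⟩, rfl⟩
        let cl : ℝ → ℝ := fun s => max c (min d s)
        have hcl : ∀ s, cl s ∈ Icc c d := fun s => ⟨le_max_left _ _, max_le hcd (min_le_left _ _)⟩
        have hcl' : ∀ s ∈ Icc c d, cl s = s := by
          intro s hs
          simp only [cl]
          rw [min_eq_right hs.2, max_eq_right hs.1]
        have hclc : Continuous cl := continuous_const.max (continuous_const.min continuous_id)
        obtain ⟨f, hf, hf'⟩ := ih H U ↥(p '' U) actU pU hHc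
          (fun u => Subtype.ext (h1 u.1))
          (fun a b u => Subtype.ext (hm a.1 b.1 u.1)) hpUq
          (by
            intro u v
            constructor
            · intro h2
              obtain ⟨k, hk⟩ := (hp u.1 v.1).1 (congrArg Subtype.val h2)
              exact ⟨⟨k, hUg k u.1 u.2 (by rw [← hk]; exact v.2)⟩, Subtype.ext hk⟩
            · rintro ⟨k, rfl⟩
              exact Subtype.ext ((hp _ _).2 ⟨k.1, rfl⟩))
          (fun s => ⟨γ (cl s), hcd' (hcl s)⟩) ((hγ.comp hclc).subtype_mk _)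
        refine ⟨fun s => (f s).1, continuous_subtype_val.comp hf, fun s hs => ?_⟩
        have h2 := congrArg Subtype.val (hf' s)
        have h3 : p (f s).1 = γ (cl s) := h2
        rw [h3, hcl' s hs]
    have hWo : IsOpen W := by
      rw [isOpen_iff_forall_mem_open]
      intro t ht
      obtain ⟨J, hJ1, hJ2, hJ3, -⟩ := hloc t ht
      exact ⟨J, hJ3, hJ1, hJ2⟩
    have hL : ∀ a b, a ≤ b → Icc a b ⊆ W → L p γ a b := by
      intro a b hab h
      refine L_of_local hp hab (fun t ht => ?_)
      obtain ⟨J, hJ1, hJ2, -, hJ4⟩ := hloc t (h ht)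
      exact ⟨J, hJ1, hJ2, hJ4⟩
    -- lifts on the components
    have hcomp : ∀ m ∈ W, ∃ f : ℝ → X, ContinuousOn f (ordConnectedComponent W m) ∧
        ∀ t ∈ ordConnectedComponent W m, p (f t) = γ t := by
      intro m hmW
      refine lift_open hp ?_ inferInstance (self_mem_ordConnectedComponent.2 hmW) ?_
      · rw [isOpen_iff_mem_nhds]
        intro t ht
        rw [ordConnectedComponent_eq (mem_ordConnectedComponent.1 ht)]
        exact ordConnectedComponent_mem_nhds.2 (hWo.mem_nhds (ordConnectedComponent_subset ht))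
      · intro a b hab h
        exact hL a b hab (h.trans ordConnectedComponent_subset)
    have hsurj : Function.Surjective p := hq.surjective
    choose e he using hsurj
    have : Nonempty X := ⟨e (γ 0)⟩
    choose! F hF1 hF2 using hcomp
    -- the base points
    let m : ℝ → ℝ := fun t => open Classical in
      if h : t ∈ W then ordConnectedProj W ⟨t, h⟩ else t
    have hmt : ∀ t (h : t ∈ W), m t = ordConnectedProj W ⟨t, h⟩ := fun t h => by
      simp only [m, h, dif_pos]
    have hmW : ∀ t ∈ W, m t ∈ W := by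
      intro t ht
      rw [hmt t ht]
      exact ordConnectedComponent_subset (ordConnectedProj_mem_ordConnectedComponent W ⟨t, ht⟩)
    have htm : ∀ t ∈ W, t ∈ ordConnectedComponent W (m t) := by
      intro t ht
      rw [hmt t ht]
      exact mem_ordConnectedComponent_ordConnectedProj W ⟨t, ht⟩
    refine ⟨fun t => open Classical in if t ∈ W then F (m t) t else e (γ t), ?_, ?_⟩
    · have hpt : ∀ t, p (open Classical in if t ∈ W then F (m t) t else e (γ t)) = γ t := by
        intro t
        by_cases ht : t ∈ W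
        · simp only [ht, if_true]
          exact hF2 _ (hmW t ht) t (htm t ht)
        · simp only [ht, if_false]
          exact he _
      rw [continuous_iff_continuousAt]
      intro t
      by_cases ht : t ∈ W
      · have hnb : ordConnectedComponent W t ∈ 𝓝 t :=
          ordConnectedComponent_mem_nhds.2 (hWo.mem_nhds ht)
        have heq : (fun t => open Classical in if t ∈ W then F (m t) t else e (γ t)) =ᶠ[𝓝 t]
            F (m t) := by
          filter_upwards [hnb] with u hu
          have huW : u ∈ W := ordConnectedComponent_subset hu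
          have h2 : m u = m t := by
            rw [hmt u huW, hmt t ht]
            refine (ordConnectedProj_eq).2 ?_
            rw [uIcc_comm]
            exact hu
          simp only [huW, if_true, h2]
        refine ContinuousAt.congr ?_ heq.symm
        refine (hF1 _ (hmW t ht)).continuousAt ?_
        rw [ordConnectedComponent_eq (mem_ordConnectedComponent.1 (htm t ht))]
        exact hnb
      · -- a fixed time
        have hfix : ∀ x, p x = γ t → ∀ g, act g x = x := by
          intro x hx g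
          by_contra hne
          exact ht ⟨x, hx, g, hne⟩
        rw [ContinuousAt, tendsto_nhds]
        intro O hO hx
        set x : X := (fun t => open Classical in if t ∈ W then F (m t) t else e (γ t)) t with hxdef
        have hxt : p x = γ t := hpt t
        have hO' : IsOpen (⋂ g, (act g) ⁻¹' O) :=
          isOpen_iInter_of_finite (fun g => hO.preimage (act g).continuous)
        have hxO : x ∈ ⋂ g, (act g) ⁻¹' O := by
          refine mem_iInter.2 (fun g => ?_)
          rw [mem_preimage, hfix x hxt g]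
          exact hx
        have h2 : γ ⁻¹' (p '' (⋂ g, (act g) ⁻¹' O)) ∈ 𝓝 t := by
          refine ((isOpen_image hq hp hO').preimage hγ).mem_nhds ?_
          rw [mem_preimage, ← hxt]
          exact mem_image_of_mem _ hxO
        filter_upwards [h2] with s hs
        obtain ⟨o, ho, hos⟩ := hs
        obtain ⟨g, hg⟩ := (hp _ _).1 (hos.trans (hpt s).symm)
        rw [mem_preimage, hg]
        exact mem_iInter.1 ho g
    · intro t
      by_cases ht : t ∈ W
      · simp only [ht, if_true]
        exact hF2 _ (hmW t ht) t (htm t ht)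
      · simp only [ht, if_false]
        exact he _

open Pool.Agent.H64.LB in
/-- L-PLG -/
theorem plg : T_PLG := by
  intro G X Q _ _ _ _ _ act p h1 hm hq hp γ x₀ hx
  obtain ⟨f, hf, hf'⟩ := main (Nat.card G) G X Q act p (le_refl _) h1 hm hq hp
    (fun t => γ (projIcc 0 1 zero_le_one t)) (γ.continuous.comp continuous_projIcc)
  have h0 : p (f 0) = p x₀ := by
    rw [hf' 0, hx]
    congr 1
    exact projIcc_of_le_left zero_le_one (le_refl _)
  obtain ⟨g, hg⟩ := (hp _ _).1 h0
  refine ⟨⟨fun t => act g (f t), (act g).continuous.comp (hf.comp continuous_subtype_val)⟩,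
    hg.symm, fun t => ?_⟩
  have h2 : p (act g (f t)) = p (f t) := ((hp _ _).2 ⟨g, rfl⟩).symm
  change p (act g (f t)) = γ t
  rw [h2, hf' t]
  congr 1
  exact projIcc_val zero_le_one t

end Pool.Agent.H63.LB.PLG
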